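import Pool.Agent.H28.BR.Stm2

set_option autoImplicit false

/-! Project BR2, module UPW: upper bound for the moments of the resonator with the tent weight. -/

namespace Pool.Agent.H91.BR

open Finset Filter Topology MeasureTheory Pool.Agent.H306R2.RZ Pool.Agent.H306R2.RG
  Pool.Agent.Q122.FM Pool.Agent.Q122.MB Pool.Agent.H28.BR Pool.Agent.H28.BR2
open Pool.Agent.Helper112 (ee)
open Pool.Agent.H75.BR (tnt cT norm_ee ee_add ee_zero cT_ee_summable tnt_fourier cT_summable)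

noncomputable section

lemma conj_ee (x : ℝ) : (starRingEnd ℂ) (ee x) = ee (-x) := by
  unfold Pool.Agent.Helper112.ee
  rw [← Complex.exp_conj]
  congr 1
  simp only [map_mul, Complex.conj_I, Complex.conj_ofReal, Complex.ofReal_neg]
  rw [show (starRingEnd ℂ) 2 = 2 from Complex.conj_ofNat 2]
  ring

/-- exponential sum with real weights -/
def TS (S : Finset ℕ) (W : ℕ → ℝ) (x : ℝ) : ℂ := ∑ d ∈ S, (W d : ℂ) * ee (x * d)

lemma norm_TS_neg (S : Finset ℕ) (W : ℕ → ℝ) (x : ℝ) : ‖TS S W (-x)‖ = ‖TS S W x‖ := by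
  have h : TS S W (-x) = (starRingEnd ℂ) (TS S W x) := by
    unfold TS
    rw [map_sum]
    refine sum_congr rfl fun d _ => ?_
    rw [map_mul, Complex.conj_ofReal, conj_ee]
    congr 2
    ring
  rw [h, RCLike.norm_conj]

lemma norm_TS_le (S : Finset ℕ) (W : ℕ → ℝ) (hW : ∀ d, 0 ≤ W d) (x : ℝ) :
    ‖TS S W x‖ ≤ ∑ d ∈ S, W d := by
  refine (norm_sum_le _ _).trans (le_of_eq (sum_congr rfl fun d _ => ?_))
  rw [norm_mul, norm_ee, mul_one, Complex.norm_real, Real.norm_of_nonneg (hW d)]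

lemma cT_bound (Δ : ℝ) (h : ℤ) (h0 : h ≠ 0) : |cT Δ h| ≤ 1 / |(h : ℝ)| ^ 2 := by
  unfold Pool.Agent.H75.BR.cT
  rw [if_neg h0]
  have hh : (0 : ℝ) < (h : ℝ) ^ 2 := by
    have : (h : ℝ) ≠ 0 := by exact_mod_cast h0
    positivity
  have hpi : 1 ≤ Real.pi ^ 2 := by nlinarith [Real.pi_gt_three]
  rw [sq_abs, abs_div, abs_of_pos (show (0 : ℝ) < 2 * Real.pi ^ 2 * (h : ℝ) ^ 2 by positivity)]
  have h1 : |1 - Real.cos (2 * Real.pi * h * Δ)| ≤ 2 := by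
    rw [abs_le]
    constructor
    · linarith [Real.cos_le_one (2 * Real.pi * h * Δ)]
    · linarith [Real.neg_one_le_cos (2 * Real.pi * h * Δ)]
  rw [div_le_div_iff₀ (by positivity) hh]
  nlinarith [mul_le_mul_of_nonneg_right h1 hh.le, mul_le_mul_of_nonneg_right hpi hh.le]

/-- the constant -/
def ZZ : ℝ := ∑' h : ℤ, |(h : ℝ)| ^ (-(3 / 2) : ℝ)

lemma ZZ_nonneg : 0 ≤ ZZ := tsum_nonneg fun _ => by positivity

lemma weighted (S : Finset ℕ) (W : ℕ → ℝ) (hW : ∀ d, 0 ≤ W d) (x γ Δ K : ℝ) (hK : 0 ≤ K)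
    (hT : ∀ h : ℕ, 1 ≤ h → ‖TS S W (h * x)‖ ≤ K * Real.sqrt h) :
    ∑ d ∈ S, tnt Δ (x * d + γ) * W d ≤ Δ ^ 2 * ∑ d ∈ S, W d + K * ZZ := by
  have hS0 : 0 ≤ ∑ d ∈ S, W d := sum_nonneg fun d _ => hW d
  have e1 : ((∑ d ∈ S, tnt Δ (x * d + γ) * W d : ℝ) : ℂ) =
      ∑' h : ℤ, (cT Δ h : ℂ) * (ee (h * γ) * TS S W (h * x)) := by
    have e2 : ∀ d ∈ S, ((tnt Δ (x * d + γ) * W d : ℝ) : ℂ) =
        ∑' h : ℤ, (cT Δ h : ℂ) * ee (h * (x * d + γ)) * (W d : ℂ) := by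
      intro d _
      rw [tsum_mul_right, tnt_fourier]
      push_cast
      rfl
    rw [Complex.ofReal_sum, sum_congr rfl e2,
      ← Summable.tsum_finsetSum fun (d : ℕ) (_ : d ∈ S) =>
        (cT_ee_summable Δ (x * (d : ℝ) + γ)).mul_right (W d : ℂ)]
    refine tsum_congr fun h => ?_
    unfold TS
    rw [mul_sum, mul_sum]
    refine sum_congr rfl fun d _ => ?_
    have e3 : ee (h * (x * d + γ)) = ee (h * γ) * ee (h * x * d) := by
      rw [← ee_add]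
      congr 1
      ring
    rw [e3]
    ring
  have hsum : Summable fun h : ℤ => |(h : ℝ)| ^ (-(3 / 2) : ℝ) :=
    Real.summable_abs_int_rpow (by norm_num)
  have hG : HasSum (fun h : ℤ => (if h = 0 then Δ ^ 2 * ∑ d ∈ S, W d else 0) +
      K * |(h : ℝ)| ^ (-(3 / 2) : ℝ)) (Δ ^ 2 * ∑ d ∈ S, W d + K * ZZ) :=
    (hasSum_ite_eq (0 : ℤ) (Δ ^ 2 * ∑ d ∈ S, W d)).add (hsum.hasSum.mul_left K)
  have hb : ∀ h : ℤ, ‖(cT Δ h : ℂ) * (ee (h * γ) * TS S W (h * x))‖ ≤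
      (if h = 0 then Δ ^ 2 * ∑ d ∈ S, W d else 0) + K * |(h : ℝ)| ^ (-(3 / 2) : ℝ) := by
    intro h
    rw [norm_mul, norm_mul, norm_ee, one_mul, Complex.norm_real, Real.norm_eq_abs]
    by_cases h0 : h = 0
    · rw [if_pos h0, h0]
      have e4 : cT Δ 0 = Δ ^ 2 := by
        unfold Pool.Agent.H75.BR.cT
        rw [if_pos rfl]
      have e5 : 0 ≤ K * |((0 : ℤ) : ℝ)| ^ (-(3 / 2) : ℝ) := by positivity
      rw [e4, abs_of_nonneg (sq_nonneg Δ)]
      have := mul_le_mul_of_nonneg_left (norm_TS_le S W hW (((0 : ℤ) : ℝ) * x)) (sq_nonneg Δ)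
      exact this.trans (le_add_of_nonneg_right e5)
    · rw [if_neg h0, zero_add]
      have hn : 1 ≤ h.natAbs := Int.natAbs_pos.2 h0
      have habs : |(h : ℝ)| = (h.natAbs : ℝ) := by
        rw [Nat.cast_natAbs, Int.cast_abs]
      have e6 : ‖TS S W (h * x)‖ = ‖TS S W (h.natAbs * x)‖ := by
        rcases Int.natAbs_eq h with e | e
        · have e7 : (h : ℝ) = (h.natAbs : ℝ) := by
            have := congrArg (Int.cast : ℤ → ℝ) e
            rwa [Int.cast_natCast] at this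
          rw [← e7]
        · have e7 : (h : ℝ) = -(h.natAbs : ℝ) := by
            have := congrArg (Int.cast : ℤ → ℝ) e
            rwa [Int.cast_neg, Int.cast_natCast] at this
          have e8 : (h : ℝ) * x = -((h.natAbs : ℝ) * x) := by rw [← neg_mul, ← e7]
          rw [e8, norm_TS_neg]
      rw [e6]
      have h8 := hT h.natAbs hn
      have hp : (0 : ℝ) < (h.natAbs : ℝ) := by exact_mod_cast hn
      calc |cT Δ h| * ‖TS S W (h.natAbs * x)‖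
          ≤ 1 / |(h : ℝ)| ^ 2 * (K * Real.sqrt h.natAbs) :=
            mul_le_mul (cT_bound Δ h h0) h8 (norm_nonneg _) (by positivity)
        _ = K * |(h : ℝ)| ^ (-(3 / 2) : ℝ) := by
            rw [habs, show (-(3 / 2) : ℝ) = (1 / 2 : ℝ) - (2 : ℕ) by norm_num, Real.rpow_sub hp,
              Real.rpow_natCast, Real.sqrt_eq_rpow]
            ring
  have h9 := tsum_of_norm_bounded hG hb
  rw [← e1, Complex.norm_real, Real.norm_eq_abs] at h9
  exact (le_abs_self _).trans h9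

lemma Gp_le {N0 j : ℕ} (hN : 1 ≤ N0) (dp : S_DP) (n : ℕ) : Gp N0 j n ≤ (N0 : ℝ) ^ j := by
  obtain ⟨-, h0, hs, hsum⟩ := dp N0 j hN
  by_cases h : Gp N0 j n = 0
  · rw [h]; positivity
  · obtain ⟨h1, h2, -⟩ := hs n h
    exact (single_le_sum (f := fun m => Gp N0 j m) (fun i _ => h0 i) (mem_Icc.2 ⟨h1, h2⟩)).trans hsum

lemma js_le (k : ℤ) (s : ℕ) : js k s ≤ 1 := by
  unfold js
  have g5 := jacobiSym.trichotomy k s
  rcases g5 with g | g | g <;> rw [g] <;> norm_num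

theorem t_UPW (ptw : S_PTW) (psi : S_PSI) (dp : S_DP) (upm : S_UPM) : S_UPW := by
  intro k hk
  obtain ⟨C1, hC1, hU⟩ := upm k hk
  refine ⟨C1, hC1, fun α c τ hN => ?_⟩
  obtain ⟨hc, hτ, -⟩ := id hN
  have hτ' : (0 : ℝ) < τ := by exact_mod_cast hτ
  have hτ1 : (1 : ℝ) ≤ τ := by exact_mod_cast hτ
  set C2 : ℝ := 2 * 64 ^ τ / c with hC2
  have hC2p : 0 ≤ C2 := by positivity
  set lam : ℝ := 1 / (2 * τ) with hlam
  have hl0 : 0 < lam := by positivity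
  have hl1 : lam ≤ 1 := by
    rw [hlam, div_le_one (by positivity)]; linarith
  refine ⟨C1 + (1 + C2) * ZZ, lam, 4 * k + 2 * k * (7 + 2 * τ), ?_, hl0, hl1, ?_⟩
  · have := ZZ_nonneg
    positivity
  intro e he c' hc' hodd X N0 hX hN0 Δ γ hΔ hΔ1
  set M : ℕ := N0 ^ (2 * k) with hM
  have hM1 : 1 ≤ M := Nat.one_le_pow _ _ hN0
  have hM1' : (1 : ℝ) ≤ M := by exact_mod_cast hM1
  have hX1 : (1 : ℝ) ≤ X := by exact_mod_cast hX
  set S : Finset ℕ := (Icc 1 X).filter (fun d => d % 8 = c') with hS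
  set W : ℕ → ℝ := fun d => DD e N0 d ^ (2 * k) with hWdef
  have hW : ∀ d, 0 ≤ W d := fun d => (even_two_mul k).pow_nonneg _
  obtain ⟨hDP, hG0, hGs, hGsum⟩ := dp N0 (2 * k) hN0
  have hWM : ∀ d, W d ≤ M := by
    intro d
    have h1 : W d = ∑ m ∈ (Icc 1 (N0 ^ (2 * k))).filter (fun m => Odd m),
        Gp N0 (2 * k) m * js (e * (d : ℤ)) m := hDP e d
    rw [h1]
    calc ∑ m ∈ (Icc 1 (N0 ^ (2 * k))).filter (fun m => Odd m), Gp N0 (2 * k) m * js (e * (d : ℤ)) m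
        ≤ ∑ m ∈ (Icc 1 (N0 ^ (2 * k))).filter (fun m => Odd m), Gp N0 (2 * k) m :=
          sum_le_sum fun m _ => by
            have := mul_le_mul_of_nonneg_left (js_le (e * (d : ℤ)) m) (hG0 m)
            rwa [mul_one] at this
      _ ≤ ∑ m ∈ Icc 1 (N0 ^ (2 * k)), Gp N0 (2 * k) m :=
          sum_le_sum_of_subset_of_nonneg (filter_subset _ _) fun m _ _ => hG0 m
      _ ≤ (N0 : ℝ) ^ (2 * k) := hGsum
      _ = M := by rw [hM]; push_cast; rfl
  -- the trivial bound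
  have hb2 : ∀ x : ℝ, ‖TS S W x‖ ≤ X * M := by
    intro x
    refine (norm_TS_le S W hW x).trans ?_
    calc ∑ d ∈ S, W d ≤ ∑ d ∈ S, (M : ℝ) := sum_le_sum fun d _ => hWM d
      _ = S.card * M := by rw [sum_const, nsmul_eq_mul]
      _ ≤ X * M := by
          refine mul_le_mul_of_nonneg_right ?_ (by positivity)
          have : S.card ≤ X := by
            calc S.card ≤ (Icc 1 X).card := card_filter_le _ _
              _ = X := by simp
          exact_mod_cast this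
  -- the bound from PTW and PSI
  have hb1 : ∀ h : ℕ, 1 ≤ h → ‖TS S W (h * (8 * α))‖ ≤
      C2 * (h : ℝ) ^ τ * (M : ℝ) ^ (6 + 2 * τ) := by
    intro h hh
    have hp := ptw e he (Gp N0 (2 * k)) (Gp N0 (2 * k)) (fun n _ => by rw [abs_of_nonneg (hG0 n)])
      hG0 c' 1 0 X M (h * (8 * α)) hc' hodd le_rfl
    have e1 : ∑ d ∈ (Ioc 0 X).filter (fun d => 1 ^ 2 ∣ d ∧ d % 8 = c'),
        ee (h * (8 * α) * d) * (NA e (Gp N0 (2 * k)) M d : ℂ) = TS S W (h * (8 * α)) := by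
      unfold TS
      refine sum_congr ?_ fun d _ => ?_
      · rw [hS]
        ext d
        simp only [mem_filter, mem_Ioc, mem_Icc, one_pow, one_dvd, true_and]
        exact ⟨fun h => ⟨⟨h.1.1, h.1.2⟩, h.2⟩, fun h => ⟨⟨h.1.1, h.1.2⟩, h.2⟩⟩
      · have e2 : NA e (Gp N0 (2 * k)) M d = W d := by
          rw [hWdef]
          simp only
          rw [hDP e d]
          unfold NA
          exact sum_congr rfl fun m _ => mul_comm _ _
        rw [e2, mul_comm]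
    rw [e1] at hp
    refine hp.trans ?_
    have hterm : ∀ s ∈ Icc 1 M, ∀ g ∈ Icc 1 M, ∀ v ∈ Icc 1 M,
        Gp N0 (2 * k) (s * (g * v) ^ 2) * (1 / Real.sqrt s) *
          Psi s ((X : ℝ) / (8 * (Nat.lcm (1 ^ 2) g : ℕ)) + 1)
            (8 * (Nat.lcm (1 ^ 2) g : ℕ) * (h * (8 * α))) ≤
        (M : ℝ) * ((M : ℝ) ^ 2 * (64 * M * h * M : ℝ) ^ τ / c) := by
      intro s hs g hg v hv
      rw [mem_Icc] at hs hg hv
      have el : Nat.lcm (1 ^ 2) g = g := by simp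
      rw [el]
      have hs1 : (1 : ℝ) ≤ s := by exact_mod_cast hs.1
      have hsM : (s : ℝ) ≤ M := by exact_mod_cast hs.2
      have hgM : (g : ℝ) ≤ M := by exact_mod_cast hg.2
      have hps := psi α c τ hN g h s ((X : ℝ) / (8 * g) + 1) hg.1 hh hs.1 (by positivity)
      have hG := Gp_le (j := 2 * k) hN0 dp (s * (g * v) ^ 2)
      have hG' : Gp N0 (2 * k) (s * (g * v) ^ 2) ≤ M := by
        rw [hM]; push_cast; exact hG
      have hsq : 1 / Real.sqrt s ≤ 1 := by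
        rw [div_le_one (by positivity)]
        exact Real.one_le_sqrt.2 hs1
      have hA : Gp N0 (2 * k) (s * (g * v) ^ 2) * (1 / Real.sqrt s) ≤ M * 1 :=
        mul_le_mul hG' hsq (by positivity) (by positivity)
      have hA0 : 0 ≤ Gp N0 (2 * k) (s * (g * v) ^ 2) * (1 / Real.sqrt s) :=
        mul_nonneg (hG0 _) (by positivity)
      have hB : (s : ℝ) ^ 2 * (64 * g * h * s : ℝ) ^ τ / c ≤
          (M : ℝ) ^ 2 * (64 * M * h * M : ℝ) ^ τ / c := by gcongr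
      calc _ ≤ Gp N0 (2 * k) (s * (g * v) ^ 2) * (1 / Real.sqrt s) *
            ((M : ℝ) ^ 2 * (64 * M * h * M : ℝ) ^ τ / c) :=
            mul_le_mul_of_nonneg_left (hps.trans hB) hA0
        _ ≤ M * ((M : ℝ) ^ 2 * (64 * M * h * M : ℝ) ^ τ / c) := by
            refine mul_le_mul_of_nonneg_right (hA.trans (mul_one _).le) (by positivity)
    calc 2 * ∑ s ∈ Icc 1 M, ∑ g ∈ Icc 1 M, ∑ v ∈ Icc 1 M,
          Gp N0 (2 * k) (s * (g * v) ^ 2) * (1 / Real.sqrt s) *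
          Psi s ((X : ℝ) / (8 * (Nat.lcm (1 ^ 2) g : ℕ)) + 1)
            (8 * (Nat.lcm (1 ^ 2) g : ℕ) * (h * (8 * α)))
        ≤ 2 * ∑ s ∈ Icc 1 M, ∑ g ∈ Icc 1 M, ∑ v ∈ Icc 1 M,
          (M : ℝ) * ((M : ℝ) ^ 2 * (64 * M * h * M : ℝ) ^ τ / c) := by
          refine mul_le_mul_of_nonneg_left ?_ (by norm_num)
          exact sum_le_sum fun s hs => sum_le_sum fun g hg => sum_le_sum fun v hv =>
            hterm s hs g hg v hv
      _ = C2 * (h : ℝ) ^ τ * (M : ℝ) ^ (6 + 2 * τ) := by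
          simp only [sum_const, nsmul_eq_mul, Nat.card_Icc, Nat.add_sub_cancel]
          rw [hC2, mul_pow, mul_pow, mul_pow, pow_add, pow_mul']
          ring
  -- interpolation
  have hK : 0 ≤ (1 + C2) * (M : ℝ) ^ (7 + 2 * τ) * (X : ℝ) ^ (1 - lam) := by positivity
  have hT : ∀ h : ℕ, 1 ≤ h → ‖TS S W (h * (8 * α))‖ ≤
      (1 + C2) * (M : ℝ) ^ (7 + 2 * τ) * (X : ℝ) ^ (1 - lam) * Real.sqrt h := by
    intro h hh
    have hh' : (1 : ℝ) ≤ h := by exact_mod_cast hh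
    set t := ‖TS S W (h * (8 * α))‖ with ht
    have ht0 : 0 ≤ t := norm_nonneg _
    have h1 : t ≤ (1 + C2) * (M : ℝ) ^ (6 + 2 * τ) * (h : ℝ) ^ τ := by
      refine (hb1 h hh).trans ?_
      have : 0 ≤ (h : ℝ) ^ τ * (M : ℝ) ^ (6 + 2 * τ) := by positivity
      nlinarith
    have h2 : t ≤ X * M := hb2 _
    have hbase : 1 ≤ (1 + C2) * (M : ℝ) ^ (6 + 2 * τ) := by
      have h3 : 1 ≤ (M : ℝ) ^ (6 + 2 * τ) := one_le_pow₀ hM1'
      nlinarith
    have h4 : t ^ lam ≤ (1 + C2) * (M : ℝ) ^ (6 + 2 * τ) * Real.sqrt h := by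
      calc t ^ lam ≤ ((1 + C2) * (M : ℝ) ^ (6 + 2 * τ) * (h : ℝ) ^ τ) ^ lam :=
            Real.rpow_le_rpow ht0 h1 hl0.le
        _ = ((1 + C2) * (M : ℝ) ^ (6 + 2 * τ)) ^ lam * ((h : ℝ) ^ τ) ^ lam :=
            Real.mul_rpow (by positivity) (by positivity)
        _ ≤ ((1 + C2) * (M : ℝ) ^ (6 + 2 * τ)) ^ (1 : ℝ) * Real.sqrt h := by
            refine mul_le_mul (Real.rpow_le_rpow_of_exponent_le hbase hl1) ?_ (by positivity)
              (by positivity)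
            rw [← Real.rpow_natCast, ← Real.rpow_mul (by positivity), Real.sqrt_eq_rpow]
            refine le_of_eq ?_
            congr 1
            rw [hlam]
            field_simp
        _ = _ := by rw [Real.rpow_one]
    have h5 : t ^ (1 - lam) ≤ (X : ℝ) ^ (1 - lam) * M := by
      calc t ^ (1 - lam) ≤ (X * M : ℝ) ^ (1 - lam) := Real.rpow_le_rpow ht0 h2 (by linarith)
        _ = (X : ℝ) ^ (1 - lam) * (M : ℝ) ^ (1 - lam) :=
            Real.mul_rpow (by positivity) (by positivity)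
        _ ≤ (X : ℝ) ^ (1 - lam) * (M : ℝ) ^ (1 : ℝ) :=
            mul_le_mul_of_nonneg_left (Real.rpow_le_rpow_of_exponent_le hM1' (by linarith))
              (by positivity)
        _ = _ := by rw [Real.rpow_one]
    have h6 : t = t ^ lam * t ^ (1 - lam) := by
      rcases eq_or_lt_of_le ht0 with h7 | h7
      · rw [← h7, Real.zero_rpow hl0.ne', zero_mul]
      · rw [← Real.rpow_add h7]
        simp
    rw [h6]
    calc t ^ lam * t ^ (1 - lam) ≤ ((1 + C2) * (M : ℝ) ^ (6 + 2 * τ) * Real.sqrt h) *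
          ((X : ℝ) ^ (1 - lam) * M) := mul_le_mul h4 h5 (by positivity) (by positivity)
      _ = _ := by
          rw [show 7 + 2 * τ = (6 + 2 * τ) + 1 by ring, pow_succ]
          ring
  have hw := weighted S W hW (8 * α) γ Δ _ hK hT
  have hu := hU e he c' hc' hodd 0 X N0 hN0
  have eS : (Ioc 0 (0 + X)).filter (fun d => d % 8 = c') = S := by
    rw [hS]
    ext d
    simp only [mem_filter, mem_Ioc, mem_Icc, zero_add]
    exact ⟨fun h => ⟨⟨h.1.1, h.1.2⟩, h.2⟩, fun h => ⟨⟨h.1.1, h.1.2⟩, h.2⟩⟩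
  rw [eS] at hu
  have hXl : (1 : ℝ) ≤ (X : ℝ) ^ (1 - lam) := Real.one_le_rpow hX1 (by linarith)
  have hN1 : (1 : ℝ) ≤ N0 := by exact_mod_cast hN0
  have hΔ2 : Δ ^ 2 ≤ 1 := by nlinarith
  have hZ := ZZ_nonneg
  have hpow1 : (N0 : ℝ) ^ (4 * k) ≤ (N0 : ℝ) ^ (4 * k + 2 * k * (7 + 2 * τ)) :=
    pow_le_pow_right₀ hN1 (by omega)
  have hpow2 : (M : ℝ) ^ (7 + 2 * τ) ≤ (N0 : ℝ) ^ (4 * k + 2 * k * (7 + 2 * τ)) := by
    rw [hM]
    push_cast
    rw [← pow_mul]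
    exact pow_le_pow_right₀ hN1 (by omega)
  have hfin1 : Δ ^ 2 * ∑ d ∈ S, W d ≤ C1 * Δ ^ 2 * X * (1 + Real.log N0) ^ (k * (k + 1) / 2) +
      C1 * (N0 : ℝ) ^ (4 * k + 2 * k * (7 + 2 * τ)) * (X : ℝ) ^ (1 - lam) := by
    have h1 : Δ ^ 2 * ∑ d ∈ S, W d ≤ Δ ^ 2 * (C1 * (X * (1 + Real.log N0) ^ (k * (k + 1) / 2) +
        (N0 : ℝ) ^ (4 * k))) := mul_le_mul_of_nonneg_left hu (sq_nonneg Δ)
    have h2 : Δ ^ 2 * (C1 * (N0 : ℝ) ^ (4 * k)) ≤
        C1 * (N0 : ℝ) ^ (4 * k + 2 * k * (7 + 2 * τ)) * (X : ℝ) ^ (1 - lam) := by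
      calc Δ ^ 2 * (C1 * (N0 : ℝ) ^ (4 * k)) ≤ 1 * (C1 * (N0 : ℝ) ^ (4 * k)) :=
            mul_le_mul_of_nonneg_right hΔ2 (by positivity)
        _ = C1 * (N0 : ℝ) ^ (4 * k) := one_mul _
        _ ≤ C1 * (N0 : ℝ) ^ (4 * k + 2 * k * (7 + 2 * τ)) :=
            mul_le_mul_of_nonneg_left hpow1 hC1.le
        _ ≤ _ := le_mul_of_one_le_right (by positivity) hXl
    nlinarith
  have hfin2 : (1 + C2) * (M : ℝ) ^ (7 + 2 * τ) * (X : ℝ) ^ (1 - lam) * ZZ ≤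
      (1 + C2) * ZZ * (N0 : ℝ) ^ (4 * k + 2 * k * (7 + 2 * τ)) * (X : ℝ) ^ (1 - lam) := by
    have h1 : (1 + C2) * ZZ * (X : ℝ) ^ (1 - lam) * (M : ℝ) ^ (7 + 2 * τ) ≤
        (1 + C2) * ZZ * (X : ℝ) ^ (1 - lam) * (N0 : ℝ) ^ (4 * k + 2 * k * (7 + 2 * τ)) :=
      mul_le_mul_of_nonneg_left hpow2 (by positivity)
    linarith
  calc ∑ d ∈ S, tnt Δ (8 * α * d + γ) * DD e N0 d ^ (2 * k)
      = ∑ d ∈ S, tnt Δ (8 * α * d + γ) * W d := rfl
    _ ≤ _ := hw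
    _ ≤ _ := by
        have := add_le_add hfin1 hfin2
        refine this.trans (le_of_eq ?_)
        ring

end

end Pool.Agent.H91.BR
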