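import Pool.Agent.H28.BR.Stm3

set_option autoImplicit false

/-! Project BR3 (helper28), jobs LIMA, DIVB (helper91). -/

namespace Pool.Agent.H91.BR3

open Finset Filter Topology MeasureTheory Pool.Agent.H306R2.RZ Pool.Agent.H306R2.RG
open Pool.Agent.Q122.FM Pool.Agent.H28.BR Pool.Agent.H28.BR3

noncomputable section

theorem js_le (k : ℤ) (n : ℕ) : |js k n| ≤ 1 := by
  unfold js
  rcases jacobiSym.trichotomy k n with h | h | h <;> rw [h] <;> simp

theorem IG_le {a : ℕ} (ha : a = 0 ∨ a = 1) {z v : ℝ} (hz : 0 < z) (hv : z ≤ v) :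
    |IG a v| ≤ z ^ ((a : ℝ) / 2 - 3 / 4) * Real.exp (-(Real.pi * v)) := by
  have hv0 : 0 < v := lt_of_lt_of_le hz hv
  have hal : (a : ℝ) / 2 - 3 / 4 ≤ 0 := by
    rcases ha with rfl | rfl <;> norm_num
  have h0 : 0 ≤ IG a v := by
    unfold IG
    refine setIntegral_nonneg measurableSet_Ioi fun t ht => ?_
    have : 0 < t := lt_trans hv0 ht
    positivity
  rw [abs_of_nonneg h0]
  unfold IG
  have hI : IntegrableOn (fun t : ℝ => Real.exp (-Real.pi * t)) (Set.Ioi v) :=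
    exp_neg_integrableOn_Ioi v Real.pi_pos
  have e := integral_exp_mul_Ioi (a := -Real.pi) (by linarith [Real.pi_pos]) v
  have hzp : 0 < z ^ ((a : ℝ) / 2 - 3 / 4) := Real.rpow_pos_of_pos hz _
  calc ∫ t in Set.Ioi v, t ^ ((a : ℝ) / 2 - 3 / 4) * Real.exp (-(Real.pi * t))
      ≤ ∫ t in Set.Ioi v, z ^ ((a : ℝ) / 2 - 3 / 4) * Real.exp (-Real.pi * t) := by
        refine integral_mono_of_nonneg ?_ (hI.const_mul _) ?_
        · rw [EventuallyLE, ae_restrict_iff' measurableSet_Ioi]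
          refine Eventually.of_forall fun t ht => ?_
          have : 0 < t := lt_trans hv0 ht
          simp only [Pi.zero_apply]
          positivity
        · rw [EventuallyLE, ae_restrict_iff' measurableSet_Ioi]
          refine Eventually.of_forall fun t ht => ?_
          have ht0 : z ≤ t := le_of_lt (lt_of_le_of_lt hv ht)
          rw [neg_mul]
          exact mul_le_mul_of_nonneg_right (Real.rpow_le_rpow_of_nonpos hz ht0 hal)
            (Real.exp_pos _).le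
    _ = z ^ ((a : ℝ) / 2 - 3 / 4) * (Real.exp (-(Real.pi * v)) / Real.pi) := by
        rw [integral_const_mul, e, neg_mul]
        congr 1
        rw [neg_div_neg_eq]
    _ ≤ _ := by
        refine mul_le_mul_of_nonneg_left ?_ hzp.le
        refine div_le_self (Real.exp_pos _).le ?_
        linarith [Real.pi_gt_three]

/-- the terms -/
def Tm (p : Par) (d : ℕ) (z : ℝ) (x : ℕ × ℕ) : ℝ :=
  if Odd x.2 then p.η ^ x.1 * js (p.e * (d : ℤ)) x.2 / Real.sqrt ((2 : ℝ) ^ x.1 * x.2) *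
      IG p.a (((2 : ℝ) ^ x.1 * x.2) ^ 2 * z) else 0

theorem Tm_le {p : Par} (hp : p.ok) (d : ℕ) {z : ℝ} (hz : 0 < z) (x : ℕ × ℕ) :
    |Tm p d z x| ≤ z ^ ((p.a : ℝ) / 2 - 3 / 4) *
      (Real.exp (-(Real.pi * z)) ^ x.1 * Real.exp (-(Real.pi * z)) ^ x.2) := by
  obtain ⟨i, n⟩ := x
  have hzp : 0 < z ^ ((p.a : ℝ) / 2 - 3 / 4) := Real.rpow_pos_of_pos hz _
  unfold Tm
  simp only
  split_ifs with hn
  · have hn1 : 1 ≤ n := hn.pos
    have hη : |p.η| ≤ 1 := by
      rcases hp.2.2.2 with h | h | h <;> rw [h] <;> simp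
    have hm1 : i + n ≤ 2 ^ i * n := by
      have h1 : i + 1 ≤ 2 ^ i := Nat.lt_two_pow_self
      nlinarith
    have hm : ((i : ℝ) + n) ≤ (2 : ℝ) ^ i * n := by exact_mod_cast hm1
    have hn1' : (1 : ℝ) ≤ n := by exact_mod_cast hn1
    have hi0 : (0 : ℝ) ≤ i := Nat.cast_nonneg _
    set M : ℝ := (2 : ℝ) ^ i * n with hM
    have hM1 : 1 ≤ M := by linarith
    have hMM : M ≤ M ^ 2 := by nlinarith
    have hv : M * z ≤ M ^ 2 * z := mul_le_mul_of_nonneg_right hMM hz.le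
    have hv2 : z ≤ M ^ 2 * z := by nlinarith
    have hIG := IG_le hp.2.2.1 hz hv2
    have hs1 : 1 ≤ Real.sqrt M := by rwa [Real.one_le_sqrt]
    have hpre : |p.η ^ i * js (p.e * (d : ℤ)) n / Real.sqrt M| ≤ 1 := by
      rw [abs_div, abs_mul, abs_pow, abs_of_nonneg (Real.sqrt_nonneg M)]
      have h1 : |p.η| ^ i ≤ 1 := pow_le_one₀ (abs_nonneg _) hη
      have h2 := js_le (p.e * (d : ℤ)) n
      have h3 : |p.η| ^ i * |js (p.e * (d : ℤ)) n| ≤ 1 :=
        mul_le_one₀ h1 (abs_nonneg _) h2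
      rw [div_le_one (by linarith)]
      linarith
    rw [abs_mul]
    calc |p.η ^ i * js (p.e * (d : ℤ)) n / Real.sqrt M| * |IG p.a (M ^ 2 * z)|
        ≤ 1 * (z ^ ((p.a : ℝ) / 2 - 3 / 4) * Real.exp (-(Real.pi * (M ^ 2 * z)))) :=
          mul_le_mul hpre hIG (abs_nonneg _) zero_le_one
      _ ≤ _ := by
          rw [one_mul, ← pow_add, ← Real.exp_nat_mul]
          refine mul_le_mul_of_nonneg_left (Real.exp_le_exp.mpr ?_) hzp.le
          have h4 : ((i : ℝ) + n) * z ≤ M ^ 2 * z :=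
            le_trans (mul_le_mul_of_nonneg_right hm hz.le) hv
          have h5 := mul_le_mul_of_nonneg_left h4 Real.pi_pos.le
          push_cast
          nlinarith
  · rw [abs_zero]
    positivity

theorem Tm_summable {p : Par} (hp : p.ok) (d : ℕ) {z : ℝ} (hz : 0 < z) :
    Summable (Tm p d z) := by
  have hr : Real.exp (-(Real.pi * z)) < 1 := by
    rw [Real.exp_lt_one_iff]
    have := mul_pos Real.pi_pos hz
    linarith
  have hg := summable_geometric_of_lt_one (Real.exp_pos (-(Real.pi * z))).le hr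
  have h2 : Summable fun x : ℕ × ℕ =>
      Real.exp (-(Real.pi * z)) ^ x.1 * Real.exp (-(Real.pi * z)) ^ x.2 :=
    hg.mul_of_nonneg hg (fun _ => by positivity) (fun _ => by positivity)
  exact Summable.of_norm_bounded (h2.mul_left (z ^ ((p.a : ℝ) / 2 - 3 / 4)))
    (fun x => by rw [Real.norm_eq_abs]; exact Tm_le hp d hz x)

theorem EA_eq (p : Par) (N d : ℕ) (z : ℝ) :
    EA p N d z = ∑ x ∈ range N ×ˢ range (N + 1), Tm p d z x := by
  unfold EA EN Q122.FM.ES
  rw [← Finset.sum_add_distrib, Finset.sum_product]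
  refine Finset.sum_congr rfl fun i _ => ?_
  have hf : (range (N + 1)).filter (fun n => Odd n) = (Icc 1 N).filter (fun n => Odd n) := by
    ext n
    simp only [Finset.mem_filter, Finset.mem_range, Finset.mem_Icc]
    constructor
    · rintro ⟨h1, h2⟩
      exact ⟨⟨h2.pos, by omega⟩, h2⟩
    · rintro ⟨h1, h2⟩
      exact ⟨by omega, h2⟩
  unfold Tm
  simp only
  rw [← Finset.sum_filter, hf,
    ← Finset.sum_filter_not_add_sum_filter ((Icc 1 N).filter (fun n => Odd n))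
      (fun n => IsSquare n), Finset.filter_filter, Finset.filter_filter]

theorem tendsto_box : Tendsto (fun N : ℕ => range N ×ˢ range (N + 1)) atTop atTop := by
  refine tendsto_atTop_finset_of_monotone ?_ ?_
  · intro M N hMN
    exact Finset.product_subset_product (Finset.range_subset_range.mpr hMN)
      (Finset.range_subset_range.mpr (by omega))
  · rintro ⟨i, n⟩
    refine ⟨i + n + 1, ?_⟩
    rw [Finset.mem_product, Finset.mem_range, Finset.mem_range]
    constructor <;> simp only <;> omega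

theorem tendsto_EA {p : Par} (hp : p.ok) (d : ℕ) {z : ℝ} (hz : 0 < z) :
    Tendsto (fun N : ℕ => EA p N d z) atTop (𝓝 (∑' x, Tm p d z x)) := by
  have h := (Tm_summable hp d hz).hasSum.comp tendsto_box
  refine h.congr fun N => ?_
  rw [EA_eq]
  rfl

theorem Einf_eq {p : Par} (hp : p.ok) (d : ℕ) {z : ℝ} (hz : 0 < z) :
    Einf p d z = ∑' x, Tm p d z x :=
  (tendsto_EA hp d hz).limUnder_eq

theorem t_LIMA : S_LIMA := by
  intro p hp d z hz
  rw [Einf_eq hp d hz]
  exact tendsto_EA hp d hz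

/-! ### DIVB -/

theorem sum_mu (m : ℕ) :
    ∑ g ∈ m.divisors, ((ArithmeticFunction.moebius g : ℤ) : ℝ) = if m = 1 then 1 else 0 := by
  have h := congrArg (fun f : ArithmeticFunction ℤ => f m) ArithmeticFunction.moebius_mul_coe_zeta
  simp only [ArithmeticFunction.coe_mul_zeta_apply, ArithmeticFunction.one_apply] at h
  have h2 := congrArg (fun k : ℤ => (k : ℝ)) h
  simp only [Int.cast_sum, Int.cast_ite, Int.cast_one, Int.cast_zero] at h2
  exact h2

theorem sum_mu_dvd {b : ℕ} (hb : b ≠ 0) (n : ℕ) :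
    ∑ g ∈ b.divisors, ((ArithmeticFunction.moebius g : ℤ) : ℝ) * (if g ∣ n then 1 else 0) =
      if Nat.gcd b n = 1 then 1 else 0 := by
  rw [← sum_mu (Nat.gcd b n)]
  have hf : (Nat.gcd b n).divisors = b.divisors.filter (fun g => g ∣ n) := by
    ext g
    rw [Finset.mem_filter, Nat.mem_divisors, Nat.mem_divisors, Nat.dvd_gcd_iff]
    constructor
    · rintro ⟨⟨h1, h2⟩, _⟩
      exact ⟨⟨h1, hb⟩, h2⟩
    · rintro ⟨⟨h1, _⟩, h2⟩
      exact ⟨⟨h1, h2⟩, fun h => hb (Nat.eq_zero_of_gcd_eq_zero_left h)⟩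
  rw [hf, Finset.sum_filter]
  refine Finset.sum_congr rfl fun g _ => ?_
  split_ifs <;> simp

theorem js_sq (e : ℤ) (b d n : ℕ) (hn : Odd n) :
    js (e * ((b ^ 2 * d : ℕ) : ℤ)) n = (if Nat.gcd b n = 1 then 1 else 0) * js (e * (d : ℤ)) n := by
  have hn0 : n ≠ 0 := hn.pos.ne'
  have e1 : e * ((b ^ 2 * d : ℕ) : ℤ) = ((b : ℤ) ^ 2) * (e * (d : ℤ)) := by
    push_cast
    ring
  unfold js
  rw [e1, jacobiSym.mul_left, jacobiSym.pow_left]
  split_ifs with h
  · rw [jacobiSym.sq_one (by rw [Int.gcd_natCast_natCast]; exact h), one_mul, one_mul]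
  · have : jacobiSym (b : ℤ) n = 0 :=
      jacobiSym.eq_zero_iff.mpr ⟨hn0, by rw [Int.gcd_natCast_natCast]; exact h⟩
    rw [this]
    simp

theorem Tm_sq (p : Par) {b : ℕ} (hb : b ≠ 0) (d : ℕ) (z : ℝ) (x : ℕ × ℕ) :
    Tm p (b ^ 2 * d) z x = ∑ g ∈ b.divisors, ((ArithmeticFunction.moebius g : ℤ) : ℝ) *
      (if g ∣ x.2 then Tm p d z x else 0) := by
  have e1 : ∀ g : ℕ, (if g ∣ x.2 then Tm p d z x else 0) =
      (if g ∣ x.2 then (1 : ℝ) else 0) * Tm p d z x := by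
    intro g
    split_ifs <;> simp
  simp only [e1, ← mul_assoc]
  rw [← Finset.sum_mul, sum_mu_dvd hb]
  unfold Tm
  by_cases h1 : Odd x.2
  · rw [if_pos h1, if_pos h1, js_sq _ _ _ _ h1]
    ring
  · rw [if_neg h1, if_neg h1, mul_zero]

theorem Tm_scale (p : Par) {g : ℕ} (hg : Odd g) (d : ℕ) (z : ℝ) (x : ℕ × ℕ) :
    Tm p d z (x.1, g * x.2) = js (p.e * (d : ℤ)) g / Real.sqrt g * Tm p d ((g : ℝ) ^ 2 * z) x := by
  obtain ⟨i, m⟩ := x
  unfold Tm
  simp only
  by_cases hm : Odd m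
  · rw [if_pos (hg.mul hm), if_pos hm]
    have hj : js (p.e * (d : ℤ)) (g * m) = js (p.e * (d : ℤ)) g * js (p.e * (d : ℤ)) m := by
      unfold js
      rw [jacobiSym.mul_right' _ hg.pos.ne' hm.pos.ne', Int.cast_mul]
    have hs : Real.sqrt ((2 : ℝ) ^ i * ((g * m : ℕ) : ℝ)) =
        Real.sqrt g * Real.sqrt ((2 : ℝ) ^ i * m) := by
      rw [← Real.sqrt_mul (Nat.cast_nonneg g)]
      congr 1
      push_cast
      ring
    have hI : ((2 : ℝ) ^ i * ((g * m : ℕ) : ℝ)) ^ 2 * z = ((2 : ℝ) ^ i * m) ^ 2 * ((g : ℝ) ^ 2 * z) := by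
      push_cast
      ring
    rw [hj, hs, hI]
    have hg0 : (0 : ℝ) < g := by exact_mod_cast hg.pos
    have hm0 : (0 : ℝ) < m := by exact_mod_cast hm.pos
    have h1 : Real.sqrt g ≠ 0 := (Real.sqrt_pos.mpr hg0).ne'
    have h2 : Real.sqrt ((2 : ℝ) ^ i * m) ≠ 0 := (Real.sqrt_pos.mpr (by positivity)).ne'
    field_simp
  · rw [if_neg hm, if_neg (fun h => hm (Nat.Odd.of_mul_right h)), mul_zero]

theorem tsum_dvd (p : Par) {g : ℕ} (hg : Odd g) (d : ℕ) (z : ℝ) :
    ∑' x : ℕ × ℕ, (if g ∣ x.2 then Tm p d z x else 0) =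
      js (p.e * (d : ℤ)) g / Real.sqrt g * ∑' x, Tm p d ((g : ℝ) ^ 2 * z) x := by
  have hinj : Function.Injective (fun x : ℕ × ℕ => (x.1, g * x.2)) := by
    rintro ⟨i, m⟩ ⟨j, n⟩ h
    simp only [Prod.mk.injEq] at h
    exact Prod.ext h.1 (Nat.eq_of_mul_eq_mul_left hg.pos h.2)
  have hsup : Function.support (fun x : ℕ × ℕ => if g ∣ x.2 then Tm p d z x else 0) ⊆
      Set.range (fun x : ℕ × ℕ => (x.1, g * x.2)) := by
    rintro ⟨i, n⟩ hx
    rw [Function.mem_support] at hx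
    simp only [ne_eq, ite_eq_right_iff, Classical.not_imp] at hx
    obtain ⟨k, hk⟩ := hx.1
    exact ⟨(i, k), by rw [hk]⟩
  rw [← hinj.tsum_eq hsup, ← tsum_mul_left]
  refine tsum_congr fun x => ?_
  rw [if_pos (Dvd.intro _ rfl)]
  exact Tm_scale p hg d z x

/-- no hypotheses -/
theorem divb : S_DIVB := by
  intro p hp b d z hb hd hz
  have hb0 : b ≠ 0 := hb.pos.ne'
  rw [Einf_eq hp _ hz, tsum_congr (Tm_sq p hb0 d z)]
  have hs : ∀ g : ℕ, Summable fun x : ℕ × ℕ => if g ∣ x.2 then Tm p d z x else 0 := by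
    intro g
    refine Summable.of_norm_bounded (Tm_summable hp d hz).norm fun x => ?_
    split_ifs
    · exact le_rfl
    · rw [norm_zero]; exact norm_nonneg _
  rw [Summable.tsum_finsetSum (fun g _ => (hs g).mul_left _)]
  refine Finset.sum_congr rfl fun g hg => ?_
  have hgo : Odd g := hb.of_dvd_nat (Nat.dvd_of_mem_divisors hg)
  have hg0 : (0 : ℝ) < g := by exact_mod_cast hgo.pos
  rw [tsum_mul_left, tsum_dvd p hgo, Einf_eq hp d (by positivity)]
  ring

theorem t_DIVB (_ : S_LIMA) : S_DIVB := divb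

end

end Pool.Agent.H91.BR3
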