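import Pool.Agent.H28.BR.Stm3
import Pool.Graph.R_pool_sql_team_seeded_3997aac3.Q153.FM.Rep

set_option autoImplicit false

/-! Project BR3 (helper28), job FEQ (helper91). -/

namespace Pool.Agent.H91.BR3

open Finset Filter Topology MeasureTheory Pool.Agent.H306R2.RZ Pool.Agent.H306R2.RG
open Pool.Agent.Q122.FM Pool.Agent.H28.BR Pool.Agent.H28.BR3
open Pool.Agent.H85R2.RG_CC4 (fam_facts term_le summable_geo abs_cf_le)

noncomputable section

/-- the substitution in the incomplete Gamma function -/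
theorem IG_suby (a : ℕ) {v y : ℝ} (hv : 0 < v) (hy : 0 < y) :
    ∫ u in Set.Ioi y, Real.exp (-(Real.pi * v * u)) * u ^ ((a : ℝ) / 2 - 3 / 4) =
      v ^ (-((a : ℝ) / 2 + 1 / 4)) * IG a (v * y) := by
  have h := integral_comp_mul_left_Ioi
    (fun t : ℝ => t ^ ((a : ℝ) / 2 - 3 / 4) * Real.exp (-(Real.pi * t))) y hv
  rw [smul_eq_mul] at h
  unfold IG
  have h2 : ∫ t in Set.Ioi (v * y), t ^ ((a : ℝ) / 2 - 3 / 4) * Real.exp (-(Real.pi * t)) =
      v * ∫ x in Set.Ioi y, (v * x) ^ ((a : ℝ) / 2 - 3 / 4) *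
        Real.exp (-(Real.pi * (v * x))) := by
    rw [h, ← mul_assoc, mul_inv_cancel₀ hv.ne', one_mul]
  rw [h2, ← mul_assoc, ← integral_const_mul]
  refine setIntegral_congr_fun measurableSet_Ioi fun u hu => ?_
  have hu0 : (0 : ℝ) < u := lt_trans hy hu
  rw [Real.mul_rpow hv.le hu0.le]
  have e1 : v ^ (-((a : ℝ) / 2 + 1 / 4)) * v * v ^ ((a : ℝ) / 2 - 3 / 4) = 1 := by
    rw [← Real.rpow_add_one hv.ne', ← Real.rpow_add hv]
    convert Real.rpow_zero v using 2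
    ring
  have e2 : Real.exp (-(Real.pi * (v * u))) = Real.exp (-(Real.pi * v * u)) := by
    congr 1; ring
  rw [e2]
  calc Real.exp (-(Real.pi * v * u)) * u ^ ((a : ℝ) / 2 - 3 / 4)
      = 1 * (u ^ ((a : ℝ) / 2 - 3 / 4) * Real.exp (-(Real.pi * v * u))) := by ring
    _ = (v ^ (-((a : ℝ) / 2 + 1 / 4)) * v * v ^ ((a : ℝ) / 2 - 3 / 4)) *
        (u ^ ((a : ℝ) / 2 - 3 / 4) * Real.exp (-(Real.pi * v * u))) := by rw [e1]
    _ = _ := by ring

/-- the integrand -/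
def Fy (φ : FD) (d : ℕ) (y : ℝ) : ℝ := thg φ d y * y ^ ((φ.a : ℝ) / 2 - 3 / 4)

/-- integrability on `(1,∞)` -/
theorem int_one (φ : FD) (hφ : Fam φ) (d : ℕ) (hd0 : d ≠ 0) :
    IntegrableOn (Fy φ d) (Set.Ioi 1) := by
  obtain ⟨hc, C, c, hC, hc0, hb⟩ := Pool.Agent.H85R2.RG_CC4.CC4 φ hφ d hd0
  have ha : (φ.a : ℝ) ≤ 1 := by exact_mod_cast (fam_facts φ hφ).2.1
  have hex : IntegrableOn (fun w : ℝ => C * Real.exp (-(c * w))) (Set.Ioi 1) := by
    refine ((exp_neg_integrableOn_Ioi 1 hc0).const_mul C).congr (Eventually.of_forall fun w => ?_)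
    simp only
    congr 2
    ring
  refine hex.mono' ?_ ?_
  · refine ContinuousOn.aestronglyMeasurable ?_ measurableSet_Ioi
    refine (hc.mono (Set.Ioi_subset_Ioi zero_le_one)).mul ?_
    intro y hy
    exact (Real.continuousAt_rpow_const _ _ (Or.inl (lt_trans one_pos hy).ne')).continuousWithinAt
  · rw [ae_restrict_iff' measurableSet_Ioi]
    refine Eventually.of_forall fun y hy => ?_
    have hy1 : (1 : ℝ) ≤ y := le_of_lt hy
    have hy0 : (0 : ℝ) < y := by linarith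
    unfold Fy
    rw [Real.norm_eq_abs, abs_mul, abs_of_nonneg (Real.rpow_nonneg hy0.le _)]
    refine le_trans (mul_le_of_le_one_right (abs_nonneg _) ?_) (hb y hy1)
    exact Real.rpow_le_one_of_one_le_of_nonpos hy1 (by linarith)

/-- inversion `u ↦ 1/u` -/
theorem inv_y (φ : FD) (hφ : Fam φ) (d : ℕ) (hd : φ.A d) (hs : Squarefree d) {y : ℝ} (hy : 0 < y)
    (I1 : IntegrableOn (Fy φ d) (Set.Ioi y)) :
    IntegrableOn (Fy φ d) (Set.Ioo 0 (1 / y)) ∧
    ∫ u in Set.Ioo 0 (1 / y), Fy φ d u = ∫ u in Set.Ioi y, Fy φ d u := by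
  set F : ℝ → ℝ := Fy φ d with hF
  have key : ∀ x ∈ Set.Ioi (0 : ℝ), (|(-1 : ℝ)| * x ^ ((-1 : ℝ) - 1)) •
      (Set.indicator (Set.Ioo (0 : ℝ) (1 / y)) F (x ^ (-1 : ℝ))) =
        Set.indicator (Set.Ioi y) F x := by
    intro x hx
    have hx0 : (0 : ℝ) < x := hx
    by_cases h1 : y < x
    · have hm : x ^ (-1 : ℝ) ∈ Set.Ioo (0 : ℝ) (1 / y) := by
        refine ⟨Real.rpow_pos_of_pos hx0 _, ?_⟩
        rw [Real.rpow_neg_one, ← one_div]
        exact one_div_lt_one_div_of_lt hy h1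
      rw [Set.indicator_of_mem hm, Set.indicator_of_mem (show x ∈ Set.Ioi y from h1)]
      simp only [hF, Fy]
      have e0 : x ^ (-1 : ℝ) = 1 / x := by rw [Real.rpow_neg_one, one_div]
      have e3 : (1 / x) ^ ((φ.a : ℝ) / 2 - 3 / 4) = x ^ (-((φ.a : ℝ) / 2 - 3 / 4)) := by
        rw [one_div, Real.inv_rpow hx0.le, ← Real.rpow_neg hx0.le]
      rw [e0, Pool.Agent.H306R2.RG.LnkC.CC3 φ hφ d hd hs x hx0, smul_eq_mul, e3, abs_neg, abs_one,
        one_mul]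
      have : x ^ ((-1 : ℝ) - 1) * (x ^ ((1 : ℝ) / 2 + φ.a) * thg φ d x *
          x ^ (-((φ.a : ℝ) / 2 - 3 / 4))) =
          thg φ d x * (x ^ ((-1 : ℝ) - 1) * x ^ ((1 : ℝ) / 2 + φ.a) *
          x ^ (-((φ.a : ℝ) / 2 - 3 / 4))) := by ring
      rw [this, ← Real.rpow_add hx0, ← Real.rpow_add hx0]
      congr 2
      ring
    · have hm : x ^ (-1 : ℝ) ∉ Set.Ioo (0 : ℝ) (1 / y) := by
        intro h
        have h2 := h.2
        rw [Real.rpow_neg_one, ← one_div] at h2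
        exact h1 ((one_div_lt_one_div hx0 hy).mp h2)
      rw [Set.indicator_of_notMem hm, Set.indicator_of_notMem (show x ∉ Set.Ioi y from h1),
        smul_zero]
  have hcv := integral_comp_rpow_Ioi (Set.indicator (Set.Ioo (0 : ℝ) (1 / y)) F)
    (show (-1 : ℝ) ≠ 0 by norm_num)
  have hci := integrableOn_Ioi_comp_rpow_iff (Set.indicator (Set.Ioo (0 : ℝ) (1 / y)) F)
    (show (-1 : ℝ) ≠ 0 by norm_num)
  rw [setIntegral_congr_fun measurableSet_Ioi key, setIntegral_indicator measurableSet_Ioi,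
    setIntegral_indicator measurableSet_Ioo] at hcv
  have s1 : Set.Ioi (0 : ℝ) ∩ Set.Ioi y = Set.Ioi y :=
    Set.inter_eq_right.mpr (Set.Ioi_subset_Ioi hy.le)
  have s2 : Set.Ioi (0 : ℝ) ∩ Set.Ioo 0 (1 / y) = Set.Ioo 0 (1 / y) :=
    Set.inter_eq_right.mpr fun x hx => hx.1
  rw [s1, s2] at hcv
  refine ⟨?_, hcv.symm⟩
  have h1 : IntegrableOn (Set.indicator (Set.Ioo (0 : ℝ) (1 / y)) F) (Set.Ioi 0) := by
    rw [← hci, integrableOn_congr_fun key measurableSet_Ioi]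
    unfold IntegrableOn
    rw [integrable_indicator_iff measurableSet_Ioi]
    unfold IntegrableOn
    rw [Measure.restrict_restrict measurableSet_Ioi, Set.inter_comm, s1]
    exact I1
  unfold IntegrableOn at h1
  rw [integrable_indicator_iff measurableSet_Ioo] at h1
  unfold IntegrableOn at h1
  rw [Measure.restrict_restrict measurableSet_Ioo, Set.inter_comm, s2] at h1
  exact h1

/-- integrability on `(0,∞)` -/
theorem int_zero (φ : FD) (hφ : Fam φ) (d : ℕ) (hd : φ.A d) (hs : Squarefree d) :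
    IntegrableOn (Fy φ d) (Set.Ioi 0) := by
  have I1 := int_one φ hφ d hs.ne_zero
  have I0 := (inv_y φ hφ d hd hs one_pos I1).1
  rw [one_div, inv_one] at I0
  rw [← Set.Ioc_union_Ioi_eq_Ioi (zero_le_one : (0 : ℝ) ≤ 1)]
  refine IntegrableOn.union ?_ I1
  rw [integrableOn_Ioc_iff_integrableOn_Ioo]
  exact I0

/-- the fold at `y` -/
theorem fold_y (φ : FD) (hφ : Fam φ) (d : ℕ) (hd : φ.A d) (hs : Squarefree d) {y : ℝ}
    (hy : 0 < y) :
    (∫ u in Set.Ioi y, Fy φ d u) + ∫ u in Set.Ioi (1 / y), Fy φ d u =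
      ∫ u in Set.Ioi 0, Fy φ d u := by
  have I0 := int_zero φ hφ d hd hs
  have hy' : 0 < 1 / y := by positivity
  have h1 := (inv_y φ hφ d hd hs hy (I0.mono_set (Set.Ioi_subset_Ioi hy.le))).2
  rw [← h1, ← Set.Ioc_union_Ioi_eq_Ioi hy'.le,
    setIntegral_union (Set.Ioc_disjoint_Ioi le_rfl) measurableSet_Ioi
      (I0.mono_set (fun x hx => hx.1)) (I0.mono_set (Set.Ioi_subset_Ioi hy'.le)),
    integral_Ioc_eq_integral_Ioo]

/-- the terms of the expansion -/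
theorem int_expy (φ : FD) (hφ : Fam φ) (d : ℕ) (hd0 : d ≠ 0) {y : ℝ} (hy : 0 < y) :
    HasSum (fun n : ℕ => cf φ d (n + 1) * ((n : ℝ) + 1) ^ φ.a *
        ∫ u in Set.Ioi y, Real.exp (-(Real.pi * (((n : ℝ) + 1) ^ 2 / (φ.r * d)) * u)) *
          u ^ ((φ.a : ℝ) / 2 - 3 / 4))
      (∫ u in Set.Ioi y, Fy φ d u) := by
  have ha : (φ.a : ℝ) ≤ 1 := by exact_mod_cast (fam_facts φ hφ).2.1
  have hdR : (0 : ℝ) < d := by positivity
  have hrR : (0 : ℝ) < φ.r := by exact_mod_cast (fam_facts φ hφ).2.2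
  have hb0 : 0 < Real.pi / (φ.r * d) := by positivity
  set K : ℝ := y ^ ((φ.a : ℝ) / 2 - 3 / 4) with hK
  have hK0 : 0 < K := Real.rpow_pos_of_pos hy _
  set F : ℕ → ℝ → ℝ := fun n u => cf φ d (n + 1) * ((n : ℝ) + 1) ^ φ.a *
    Real.exp (-(Real.pi * ((n : ℝ) + 1) ^ 2 * u / (φ.r * d))) * u ^ ((φ.a : ℝ) / 2 - 3 / 4) with hF
  have hex : IntegrableOn (fun w : ℝ => K * Real.exp (-(Real.pi / (φ.r * d) * w))) (Set.Ioi y) := by
    have h0 : IntegrableOn (fun w : ℝ => K * Real.exp (-(Real.pi / (φ.r * d)) * w)) (Set.Ioi y) :=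
      (exp_neg_integrableOn_Ioi y hb0).const_mul K
    refine h0.congr_fun (fun w _ => ?_) measurableSet_Ioi
    simp only
    congr 2
    ring
  set G : ℕ → ℝ := fun n => ((n : ℝ) + 1) * Real.exp (-(Real.pi / (φ.r * d) * y)) ^ n with hG
  have hG0 : ∀ n, 0 ≤ G n := fun n => by simp only [hG]; positivity
  have hbd : ∀ n, ∀ u ∈ Set.Ioi y,
      ‖F n u‖ ≤ G n * (K * Real.exp (-(Real.pi / (φ.r * d) * u))) := by
    intro n u hu
    have hu1 : y ≤ u := le_of_lt hu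
    have hu0 : (0 : ℝ) < u := by linarith
    rw [Real.norm_eq_abs]
    simp only [hF, hG]
    rw [abs_mul, abs_of_nonneg (Real.rpow_nonneg hu0.le _)]
    have h1 := term_le φ hφ d hd0 u y hy hu1 n
    have h2 : u ^ ((φ.a : ℝ) / 2 - 3 / 4) ≤ K :=
      Real.rpow_le_rpow_of_nonpos hy hu1 (by linarith)
    refine (mul_le_mul h1 h2 (Real.rpow_nonneg hu0.le _) (by positivity)).trans (le_of_eq ?_)
    ring
  have hFi : ∀ n, Integrable (F n) (volume.restrict (Set.Ioi y)) := by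
    intro n
    refine (hex.const_mul (G n)).mono' ?_ ?_
    · refine ContinuousOn.aestronglyMeasurable ?_ measurableSet_Ioi
      refine ContinuousOn.mul (by fun_prop) ?_
      intro u hu
      exact (Real.continuousAt_rpow_const _ _ (Or.inl (lt_trans hy hu).ne')).continuousWithinAt
    · rw [ae_restrict_iff' measurableSet_Ioi]
      exact Eventually.of_forall fun u hu => hbd n u hu
  have hsum : Summable fun n => ∫ u, ‖F n u‖ ∂(volume.restrict (Set.Ioi y)) := by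
    refine Summable.of_nonneg_of_le (fun n => integral_nonneg fun u => norm_nonneg _) (fun n => ?_)
      ((summable_geo φ hφ d hd0 y hy).mul_right
        (∫ w in Set.Ioi y, K * Real.exp (-(Real.pi / (φ.r * d) * w))))
    calc ∫ u, ‖F n u‖ ∂(volume.restrict (Set.Ioi y))
        ≤ ∫ u in Set.Ioi y, G n * (K * Real.exp (-(Real.pi / (φ.r * d) * u))) :=
          setIntegral_mono_on (hFi n).norm (hex.const_mul (G n)) measurableSet_Ioi (hbd n)
      _ = _ := by rw [integral_const_mul]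
  have h1 := hasSum_integral_of_summable_integral_norm hFi hsum
  have e1 : ∀ n, ∫ u, F n u ∂(volume.restrict (Set.Ioi y)) =
      cf φ d (n + 1) * ((n : ℝ) + 1) ^ φ.a *
        ∫ u in Set.Ioi y, Real.exp (-(Real.pi * (((n : ℝ) + 1) ^ 2 / (φ.r * d)) * u)) *
          u ^ ((φ.a : ℝ) / 2 - 3 / 4) := by
    intro n
    rw [← integral_const_mul]
    refine setIntegral_congr_fun measurableSet_Ioi fun u _ => ?_
    simp only [hF]
    have : Real.pi * ((n : ℝ) + 1) ^ 2 * u / (φ.r * d) =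
        Real.pi * (((n : ℝ) + 1) ^ 2 / (φ.r * d)) * u := by ring
    rw [this]
    ring
  have e2 : ∫ u in Set.Ioi y, ∑' n, F n u = ∫ u in Set.Ioi y, Fy φ d u := by
    refine setIntegral_congr_fun measurableSet_Ioi fun u _ => ?_
    simp only [hF, Fy, thg]
    rw [tsum_mul_right]
  rw [e2] at h1
  simp only [e1] at h1
  exact h1

/-- the truncated formula at `y/(rd)` -/
theorem tendsto_y (φ : FD) (hφ : Fam φ) (d : ℕ) (hd0 : d ≠ 0) {y : ℝ} (hy : 0 < y) :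
    Tendsto (fun N : ℕ => EA (par φ) N d (y / (φ.r * (d : ℝ)))) atTop
      (𝓝 (((φ.r * (d : ℝ)) ^ ((φ.a : ℝ) / 2 + 1 / 4))⁻¹ * ∫ u in Set.Ioi y, Fy φ d u)) := by
  have hdR : (0 : ℝ) < d := by positivity
  have hrR : (0 : ℝ) < φ.r := by exact_mod_cast (fam_facts φ hφ).2.2
  have hq : (0 : ℝ) < φ.r * d := by positivity
  set q : ℝ := φ.r * d with hqd
  have h1 := int_expy φ hφ d hd0 hy
  -- the terms
  set T : ℕ → ℝ := fun n => if n = 0 then 0 else
    cf φ d n / Real.sqrt n * IG φ.a ((n : ℝ) ^ 2 * (y / q)) with hT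
  have hterm : ∀ n : ℕ, cf φ d (n + 1) * ((n : ℝ) + 1) ^ φ.a *
        ∫ u in Set.Ioi y, Real.exp (-(Real.pi * (((n : ℝ) + 1) ^ 2 / q) * u)) *
          u ^ ((φ.a : ℝ) / 2 - 3 / 4) = q ^ ((φ.a : ℝ) / 2 + 1 / 4) * T (n + 1) := by
    intro n
    have hn : (0 : ℝ) < (n : ℝ) + 1 := by positivity
    rw [IG_suby φ.a (show 0 < ((n : ℝ) + 1) ^ 2 / q by positivity) hy]
    simp only [hT, if_neg (Nat.succ_ne_zero n)]
    push_cast
    rw [show ((n : ℝ) + 1) ^ 2 / q * y = ((n : ℝ) + 1) ^ 2 * (y / q) by ring]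
    have e1 : (((n : ℝ) + 1) ^ 2 / q) ^ (-((φ.a : ℝ) / 2 + 1 / 4)) =
        q ^ ((φ.a : ℝ) / 2 + 1 / 4) * (((n : ℝ) + 1) ^ φ.a * Real.sqrt ((n : ℝ) + 1))⁻¹ := by
      have e0 : (1 / q) ^ (-((φ.a : ℝ) / 2 + 1 / 4)) = q ^ ((φ.a : ℝ) / 2 + 1 / 4) := by
        rw [one_div, Real.inv_rpow hq.le, Real.rpow_neg hq.le, inv_inv]
      rw [show ((n : ℝ) + 1) ^ 2 / q = ((n : ℝ) + 1) ^ 2 * (1 / q) by ring,
        Real.mul_rpow (by positivity) (by positivity), e0, ← Real.rpow_natCast (((n : ℝ) + 1)) 2,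
        ← Real.rpow_mul hn.le,
        Real.sqrt_eq_rpow, ← Real.rpow_natCast (((n : ℝ) + 1)) φ.a, ← Real.rpow_add hn,
        ← Real.rpow_neg hn.le, mul_comm]
      congr 2
      push_cast
      ring
    rw [e1]
    have : ((n : ℝ) + 1) ^ φ.a ≠ 0 := by positivity
    field_simp
  simp only [← hqd] at h1
  simp only [hterm] at h1
  have hqp : 0 < q ^ ((φ.a : ℝ) / 2 + 1 / 4) := Real.rpow_pos_of_pos hq _
  have h3 : HasSum (fun n : ℕ => T (n + 1)) ((q ^ ((φ.a : ℝ) / 2 + 1 / 4))⁻¹ *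
      ∫ u in Set.Ioi y, Fy φ d u) := by
    have h := h1.mul_left (q ^ ((φ.a : ℝ) / 2 + 1 / 4))⁻¹
    have e : (fun n : ℕ => (q ^ ((φ.a : ℝ) / 2 + 1 / 4))⁻¹ *
        (q ^ ((φ.a : ℝ) / 2 + 1 / 4) * T (n + 1))) = fun n => T (n + 1) := by
      funext n
      rw [← mul_assoc, inv_mul_cancel₀ hqp.ne', one_mul]
    rw [e] at h
    exact h
  have h4 : HasSum T ((q ^ ((φ.a : ℝ) / 2 + 1 / 4))⁻¹ * ∫ u in Set.Ioi y, Fy φ d u) := by
    rw [← hasSum_nat_add_iff' 1]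
    have hT0 : T 0 = 0 := by simp [hT]
    rw [Finset.sum_range_one, hT0, sub_zero]
    exact h3
  have h5 := h4.comp Pool.Agent.Q153.FM.tendsto_PN
  refine h5.congr fun N => ?_
  show ∑ n ∈ Pool.Agent.Q153.FM.PN N, T n = _
  rw [Pool.Agent.Q153.FM.sum_PN T (by simp [hT]) N]
  unfold EA EN Q122.FM.ES
  rw [← Finset.sum_add_distrib]
  refine Finset.sum_congr rfl fun i _ => ?_
  have hsp : ∀ g : ℕ → ℝ, ∑ m ∈ (Icc 1 N).filter (fun n => Odd n), g m =
      ∑ m ∈ (Icc 1 N).filter (fun n => Odd n ∧ ¬ IsSquare n), g m +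
      ∑ m ∈ (Icc 1 N).filter (fun n => Odd n ∧ IsSquare n), g m := by
    intro g
    rw [← Finset.sum_filter_not_add_sum_filter ((Icc 1 N).filter (fun n => Odd n))
      (fun n => IsSquare n), Finset.filter_filter, Finset.filter_filter]
  have hg : ∀ m ∈ (Icc 1 N).filter (fun n => Odd n), T (2 ^ i * m) =
      (par φ).η ^ i * js ((par φ).e * (d : ℤ)) m / Real.sqrt ((2 : ℝ) ^ i * m) *
      IG (par φ).a (((2 : ℝ) ^ i * m) ^ 2 * (y / q)) := by
    intro m hm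
    have hmo := (Finset.mem_filter.mp hm).2
    have hm0 : m ≠ 0 := by rintro rfl; exact absurd hmo (by decide)
    simp only [hT, if_neg (show 2 ^ i * m ≠ 0 by positivity)]
    rw [Pool.Agent.Q153.FM.cf_two φ d i m hmo]
    push_cast
    rfl
  rw [Finset.sum_congr rfl hg, hsp]

theorem Einf_y (φ : FD) (hφ : Fam φ) (d : ℕ) (hd0 : d ≠ 0) {y : ℝ} (hy : 0 < y) :
    Einf (par φ) d (y / (φ.r * (d : ℝ))) =
      ((φ.r * (d : ℝ)) ^ ((φ.a : ℝ) / 2 + 1 / 4))⁻¹ * ∫ u in Set.Ioi y, Fy φ d u :=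
  (tendsto_y φ hφ d hd0 hy).limUnder_eq

/-- no hypotheses -/
theorem feq : S_FEQ := by
  intro φ hφ d hd hs
  have hd0 : d ≠ 0 := hs.ne_zero
  refine ⟨(Pool.Agent.Q153.FM.t_REP φ hφ d hd hs).limUnder_eq, fun y hy => ?_⟩
  have hy' : 0 < 1 / y := by positivity
  have e1 : 1 / (y * (φ.r * (d : ℝ))) = (1 / y) / (φ.r * (d : ℝ)) := by
    rw [div_div]
  rw [e1, Einf_y φ hφ d hd0 hy, Einf_y φ hφ d hd0 hy', Einf_y φ hφ d hd0 one_pos, ← mul_add,
    fold_y φ hφ d hd hs hy]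
  have h1 := fold_y φ hφ d hd hs one_pos
  rw [one_div, inv_one] at h1
  rw [← h1]
  ring

theorem t_FEQ (_ : S_LIMA) (_ : S_REP) : S_FEQ := feq

end

end Pool.Agent.H91.BR3
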