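import Pool.Agent.H94.BR.Ir2

set_option autoImplicit false

/-! Project BR3 (helper28), job UPP (helper91): the mean square of the central values. -/

namespace Pool.Agent.H91.BR3

open Finset Filter Topology MeasureTheory Pool.Agent.H306R2.RZ Pool.Agent.H306R2.RG
open Pool.Agent.Q122.FM Pool.Agent.H28.BR Pool.Agent.H28.BR3
open Pool.Agent.H94.BR (CG L2 Lf2_eq main_mono)

noncomputable section

theorem gm_pos (a : ℕ) : 0 < gm (1 / 2 + (a : ℝ)) := by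
  unfold gm
  refine mul_pos (Real.rpow_pos_of_pos Real.pi_pos _) (Real.Gamma_pos_of_pos ?_)
  have : (0 : ℝ) ≤ a := Nat.cast_nonneg _
  linarith

/-- one class of one family -/
theorem cls_upp {C : ℝ}
    (msq : ∀ p : Par, p.ok → ∀ c : ℕ, c < 8 → Odd c → ∀ (X N : ℕ) (z : ℕ → ℝ),
      1 ≤ X → (∀ d ∈ Icc 1 X, 1 / (8 * (X : ℝ)) ≤ z d) →
      ∑ d ∈ (Icc 1 X).filter (fun d => d % 8 = c), EA p N d (z d) ^ 2 ≤ C * (X * lg X ^ 3))
    (lima : S_LIMA) (feq : S_FEQ) (φ : FD) (hφ : Fam φ) (c : ℕ) (hc : c < 8) (ho : Odd c)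
    (y : ℕ) (hA : ∀ d : ℕ, y < d → d % 8 = c → Squarefree d → φ.A d) (x : ℕ) (hx : 1 ≤ x) :
    ∑ d ∈ (Ioc y x).filter (fun d => d % 8 = c ∧ Squarefree d), L2 φ d ≤
      C / (gm (1 / 2 + φ.a) / 2) ^ 2 * (x * lg x ^ 3) := by
  have hp := par_ok hφ
  have hr := hp.2.1
  have hr1 : (1 : ℝ) ≤ φ.r := by exact_mod_cast hr.1
  have hr8 : (φ.r : ℝ) ≤ 8 := by exact_mod_cast hr.2
  have hg : 0 < gm (1 / 2 + (φ.a : ℝ)) / 2 := by
    have := gm_pos φ.a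
    linarith
  set D := (Ioc y x).filter (fun d => d % 8 = c ∧ Squarefree d) with hD
  have hx0 : (0 : ℝ) < x := by exact_mod_cast hx
  have hDs : D ⊆ (Icc 1 x).filter (fun d => d % 8 = c) := by
    intro d hd
    rw [hD, mem_filter, mem_Ioc] at hd
    rw [mem_filter, mem_Icc]
    exact ⟨⟨by omega, hd.1.2⟩, hd.2.1⟩
  have hN : ∀ N : ℕ, ∑ d ∈ D, EA (par φ) N d (1 / (φ.r * (d : ℝ))) ^ 2 ≤ C * (x * lg x ^ 3) := by
    intro N
    refine (Finset.sum_le_sum_of_subset_of_nonneg hDs (fun d _ _ => sq_nonneg _)).trans ?_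
    refine msq (par φ) hp c hc ho x N (fun d => 1 / (φ.r * (d : ℝ))) hx fun d hd => ?_
    rw [mem_Icc] at hd
    have hd1 : (1 : ℝ) ≤ d := by exact_mod_cast hd.1
    have hdx : (d : ℝ) ≤ x := by exact_mod_cast hd.2
    refine one_div_le_one_div_of_le (by positivity) ?_
    exact mul_le_mul hr8 hdx (by positivity) (by norm_num)
  have hlim : Tendsto (fun N : ℕ => ∑ d ∈ D, EA (par φ) N d (1 / (φ.r * (d : ℝ))) ^ 2) atTop
      (𝓝 (∑ d ∈ D, Einf (par φ) d (1 / (φ.r * (d : ℝ))) ^ 2)) := by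
    refine tendsto_finsetSum _ fun d hd => ?_
    have hd1 : (1 : ℕ) ≤ d := (mem_Icc.1 (mem_filter.1 (hDs hd)).1).1
    have hd1' : (1 : ℝ) ≤ d := by exact_mod_cast hd1
    exact (lima (par φ) hp d _ (by positivity)).pow 2
  have h1 := le_of_tendsto' hlim hN
  have h2 : ∑ d ∈ D, Einf (par φ) d (1 / (φ.r * (d : ℝ))) ^ 2 =
      (gm (1 / 2 + φ.a) / 2) ^ 2 * ∑ d ∈ D, L2 φ d := by
    rw [Finset.mul_sum]
    refine Finset.sum_congr rfl fun d hd => ?_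
    rw [hD, mem_filter, mem_Ioc] at hd
    rw [(feq φ hφ d (hA d hd.1.1 hd.2.1 hd.2.2) hd.2.2).1]
    unfold Pool.Agent.H94.BR.L2
    ring
  rw [h2] at h1
  rw [div_mul_eq_mul_div, le_div_iff₀ (by positivity)]
  linarith

theorem cls_upp' {C : ℝ} (hC : 0 < C)
    (msq : ∀ p : Par, p.ok → ∀ c : ℕ, c < 8 → Odd c → ∀ (X N : ℕ) (z : ℕ → ℝ),
      1 ≤ X → (∀ d ∈ Icc 1 X, 1 / (8 * (X : ℝ)) ≤ z d) →
      ∑ d ∈ (Icc 1 X).filter (fun d => d % 8 = c), EA p N d (z d) ^ 2 ≤ C * (X * lg X ^ 3))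
    (lima : S_LIMA) (feq : S_FEQ) (φ : FD) (hφ : Fam φ) (Cl : Finset ℕ)
    (hCl : ∀ c ∈ Cl, c < 8 ∧ Odd c)
    (y : ℕ) (hA : ∀ c ∈ Cl, ∀ d : ℕ, y < d → d % 8 = c → Squarefree d → φ.A d) (X r : ℕ)
    (hX : 1 ≤ X) :
    ‖∑ c ∈ Cl, CG (L2 φ) c y (X / r) (fun _ => 1)‖ ≤
      Cl.card * (C / (gm (1 / 2 + φ.a) / 2) ^ 2) * (X * lg X ^ 3) := by
  have hg : 0 < gm (1 / 2 + (φ.a : ℝ)) / 2 := by
    have := gm_pos φ.a
    linarith
  have hlg1 : 1 ≤ lg X := lg_one_le hX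
  refine (norm_sum_le _ _).trans ?_
  have h1 : ∀ c ∈ Cl, ‖CG (L2 φ) c y (X / r) (fun _ => 1)‖ ≤
      C / (gm (1 / 2 + φ.a) / 2) ^ 2 * (X * lg X ^ 3) := by
    intro c hc
    have e : CG (L2 φ) c y (X / r) (fun _ => 1) =
        ((∑ d ∈ (Ioc y (X / r)).filter (fun d => d % 8 = c ∧ Squarefree d), L2 φ d : ℝ) : ℂ) := by
      unfold Pool.Agent.H94.BR.CG
      push_cast
      simp only [mul_one]
    have h0 : 0 ≤ ∑ d ∈ (Ioc y (X / r)).filter (fun d => d % 8 = c ∧ Squarefree d), L2 φ d :=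
      Finset.sum_nonneg fun d _ => by unfold L2; positivity
    rw [e, Complex.norm_real, Real.norm_eq_abs, abs_of_nonneg h0]
    rcases Nat.eq_zero_or_pos (X / r) with h | h
    · rw [h, Finset.Ioc_eq_empty (by omega), Finset.filter_empty, Finset.sum_empty]
      positivity
    · refine (cls_upp msq lima feq φ hφ c (hCl c hc).1 (hCl c hc).2 y (hA c hc) (X / r) h).trans ?_
      exact mul_le_mul_of_nonneg_left (main_mono h) (by positivity)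
  refine (Finset.sum_le_card_nsmul _ _ _ h1).trans (le_of_eq ?_)
  rw [nsmul_eq_mul, mul_assoc]

theorem gen_upp (msq : S_MSQ) (lima : S_LIMA) (feq : S_FEQ) (fdd : S_FDD) (ε : ℤ)
    (hε : ε = 1 ∨ ε = -1) (Cl8 Cl4 Cl1 Cl5 : Finset ℕ)
    (hc : ∀ c ∈ Cl8 ∪ Cl4 ∪ Cl1 ∪ Cl5, c < 8 ∧ Odd c) (o15 : Disjoint Cl1 Cl5)
    (h8 : ∀ d : ℕ, 1 ≤ d → Squarefree d → ((F8 ε).A d ↔ d % 8 ∈ Cl8))
    (h4 : ∀ d : ℕ, 1 ≤ d → Squarefree d → ((F4 ε).A d ↔ d % 8 ∈ Cl4))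
    (h1 : ∀ d : ℕ, 2 ≤ d → Squarefree d → ((F1 ε 1).A d ↔ d % 8 ∈ Cl1))
    (h5 : ∀ d : ℕ, 2 ≤ d → Squarefree d → ((F1 ε 5).A d ↔ d % 8 ∈ Cl5)) :
    ∃ K : ℝ, 0 ≤ K ∧ ∀ X : ℕ, 1 ≤ X → ∑ n ∈ Ioc 1 X, Lf ε n ^ 2 ≤ K * (X * lg X ^ 3) := by
  obtain ⟨C, hC, msq⟩ := msq
  have f8 : Fam (F8 ε) := ⟨ε, hε, Or.inl rfl⟩
  have f4 : Fam (F4 ε) := ⟨ε, hε, Or.inr (Or.inl rfl)⟩
  have f1 : Fam (F1 ε 1) := ⟨ε, hε, Or.inr (Or.inr (Or.inl rfl))⟩
  have f5 : Fam (F1 ε 5) := ⟨ε, hε, Or.inr (Or.inr (Or.inr rfl))⟩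
  have c8 : ∀ c ∈ Cl8, c < 8 ∧ Odd c := fun c h => hc c (by simp [h])
  have c4 : ∀ c ∈ Cl4, c < 8 ∧ Odd c := fun c h => hc c (by simp [h])
  have c1 : ∀ c ∈ Cl1, c < 8 ∧ Odd c := fun c h => hc c (by simp [h])
  have c5 : ∀ c ∈ Cl5, c < 8 ∧ Odd c := fun c h => hc c (by simp [h])
  refine ⟨Cl8.card * (C / (gm (1 / 2 + (F8 ε).a) / 2) ^ 2) +
    Cl4.card * (C / (gm (1 / 2 + (F4 ε).a) / 2) ^ 2) +
    Cl1.card * (C / (gm (1 / 2 + (F1 ε 1).a) / 2) ^ 2) +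
    Cl5.card * (C / (gm (1 / 2 + (F1 ε 5).a) / 2) ^ 2), by positivity, fun X hX => ?_⟩
  have b8 := cls_upp' hC msq lima feq (F8 ε) f8 Cl8 c8 0 (fun c hc' d hd0 hd hs =>
    (h8 d hd0 hs).2 (by rw [hd]; exact hc')) X 8 hX
  have b4 := cls_upp' hC msq lima feq (F4 ε) f4 Cl4 c4 0 (fun c hc' d hd0 hd hs =>
    (h4 d hd0 hs).2 (by rw [hd]; exact hc')) X 4 hX
  have b1 := cls_upp' hC msq lima feq (F1 ε 1) f1 Cl1 c1 1 (fun c hc' d hd0 hd hs =>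
    (h1 d hd0 hs).2 (by rw [hd]; exact hc')) X 1 hX
  have b5 := cls_upp' hC msq lima feq (F1 ε 5) f5 Cl5 c5 1 (fun c hc' d hd0 hd hs =>
    (h5 d hd0 hs).2 (by rw [hd]; exact hc')) X 1 hX
  simp only [Nat.div_one] at b1 b5
  have h := Lf2_eq fdd ε hε Cl8 Cl4 Cl1 Cl5 (fun c h => Nat.odd_iff.1 (c4 c h).2)
    (fun c h => Nat.odd_iff.1 (c1 c h).2) (fun c h => Nat.odd_iff.1 (c5 c h).2) o15 h8 h4 h1 h5 X
    (fun _ => 1)
  have e : ∑ n ∈ Ioc 1 X, ((Lf ε n ^ 2 : ℝ) : ℂ) * (fun _ : ℕ => (1 : ℂ)) n =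
      ((∑ n ∈ Ioc 1 X, Lf ε n ^ 2 : ℝ) : ℂ) := by
    push_cast
    simp only [mul_one]
  have h0 : 0 ≤ ∑ n ∈ Ioc 1 X, Lf ε n ^ 2 := Finset.sum_nonneg fun n _ => sq_nonneg _
  have h2 : ∑ n ∈ Ioc 1 X, Lf ε n ^ 2 =
      ‖∑ n ∈ Ioc 1 X, ((Lf ε n ^ 2 : ℝ) : ℂ) * (fun _ : ℕ => (1 : ℂ)) n‖ := by
    rw [e, Complex.norm_real, Real.norm_eq_abs, abs_of_nonneg h0]
  rw [h2, h]
  refine (norm_add_le _ _).trans ?_
  refine (add_le_add (norm_add_le _ _) le_rfl).trans ?_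
  refine (add_le_add (add_le_add (norm_add_le _ _) le_rfl) le_rfl).trans ?_
  rw [add_mul, add_mul, add_mul]
  exact add_le_add (add_le_add (add_le_add b8 b4) b1) b5

theorem t_UPP (msq : S_MSQ) (lima : S_LIMA) (feq : S_FEQ) (fdd : S_FDD) :
    ∃ C : ℝ, 0 < C ∧ ∀ ε : ℤ, (ε = 1 ∨ ε = -1) → ∀ X : ℕ, 1 ≤ X →
      ∑ n ∈ Ioc 1 X, Lf ε n ^ 2 ≤ C * (X * lg X ^ 3) := by
  obtain ⟨K1, hK1, k1⟩ := gen_upp msq lima feq fdd 1 (Or.inl rfl) {1, 3, 5, 7} {3, 7} {1} {5}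
      (by decide) (by decide)
      (by
        intro d hd hs
        simp only [F8, mem_insert, mem_singleton]
        rw [Nat.odd_iff]
        omega)
      (by
        intro d hd hs
        simp only [F4, mem_insert, mem_singleton]
        omega)
      (by
        intro d hd hs
        simp only [F1, mem_singleton]
        have := not_sq_nat hd hs
        simp only [this, not_false_eq_true, and_true]
        omega)
      (by
        intro d hd hs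
        simp only [F1, mem_singleton]
        have := not_sq_nat hd hs
        simp only [this, not_false_eq_true, and_true]
        omega)
  obtain ⟨K2, hK2, k2⟩ := gen_upp msq lima feq fdd (-1) (Or.inr rfl) {1, 3, 5, 7} {1, 5} {7} {3}
      (by decide) (by decide)
      (by
        intro d hd hs
        simp only [F8, mem_insert, mem_singleton]
        rw [Nat.odd_iff]
        omega)
      (by
        intro d hd hs
        simp only [F4, mem_insert, mem_singleton]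
        omega)
      (by
        intro d hd hs
        simp only [F1, mem_singleton]
        have := not_sq_neg hd
        simp only [this, not_false_eq_true, and_true]
        omega)
      (by
        intro d hd hs
        simp only [F1, mem_singleton]
        have := not_sq_neg hd
        simp only [this, not_false_eq_true, and_true]
        omega)
  refine ⟨K1 + K2 + 1, by positivity, ?_⟩
  intro ε hε X hX
  have hlg1 : 1 ≤ lg X := lg_one_le hX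
  have hR : 0 ≤ (X : ℝ) * lg X ^ 3 := by positivity
  rcases hε with rfl | rfl
  · refine (k1 X hX).trans (mul_le_mul_of_nonneg_right (by linarith) hR)
  · refine (k2 X hX).trans (mul_le_mul_of_nonneg_right (by linarith) hR)

end

end Pool.Agent.H91.BR3
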